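import Mathlib

set_option autoImplicit false

namespace Pool.Agent.Results.MP_6532c6_co.Full

open Finset

/-- a partition of a positive integer: a nonempty multiset of positive integers. -/
def IsPart (l : Multiset ℕ) : Prop := l ≠ 0 ∧ ∀ x ∈ l, 0 < x

/-- replace one part by a partition of that part. -/
def Split (a b : Multiset ℕ) : Prop :=
  ∃ (x : ℕ) (s t : Multiset ℕ), a = x ::ₘ s ∧ b = t + s ∧ IsPart t ∧ t.sum = x

/-- the order on partitions: increase the parts, then refine. -/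
def PLe (a b : Multiset ℕ) : Prop :=
  ∃ n : Multiset ℕ, Multiset.Rel (· ≤ ·) a n ∧ Relation.ReflTransGen Split n b

open Classical in
/-- `L` is an `l`-assignment: the colours are split into classes indexed by the parts of `l`
(with multiplicity) and every list has exactly `i` colours in the class of a part of size `i`. -/
def IsAssign {V : Type} (l : Multiset ℕ) (L : V → Finset ℕ) : Prop :=
  ∃ cl : ℕ → l.ToType, ∀ (v : V) (i : l.ToType), ((L v).filter fun c => cl c = i).card = (i : ℕ)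

/-- `G` is `l`-choosable. -/
def Choosable {V : Type} (G : SimpleGraph V) (l : Multiset ℕ) : Prop :=
  ∀ L : V → Finset ℕ, IsAssign l L →
    ∃ f : V → ℕ, (∀ v, f v ∈ L v) ∧ ∀ u v, G.Adj u v → f u ≠ f v

lemma rel_map' {α : Type} (s : Multiset α) (f g : α → ℕ) (h : ∀ a, f a ≤ g a) :
    Multiset.Rel (· ≤ ·) (s.map f) (s.map g) :=
  Multiset.rel_map.2 (Multiset.rel_refl_of_refl_on fun a _ => h a)

lemma group {α β : Type} [Fintype α] [Fintype β] [DecidableEq α] (k : α → ℕ) (m : β → ℕ)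
    (hk : ∀ a, 0 < k a) (hm : ∀ b, 0 < m b) (g : β → α)
    (h : ∀ a, k a ≤ ∑ j ∈ univ.filter (fun j => g j = a), m j) :
    PLe (univ.val.map k) (univ.val.map m) := by
  classical
  refine ⟨univ.val.map fun a => ∑ j ∈ univ.filter (fun j => g j = a), m j, rel_map' _ _ _ h, ?_⟩
  have key : ∀ (s : Finset α) (r : Multiset ℕ), Relation.ReflTransGen Split
      ((s.val.map fun a => ∑ j ∈ univ.filter (fun j => g j = a), m j) + r)
      ((univ.filter fun j => g j ∈ s).val.map m + r) := by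
    intro s
    induction s using Finset.induction_on with
    | empty => intro r; simpa using Relation.ReflTransGen.refl
    | insert a s ha ih =>
      intro r
      have e : (univ.filter fun j => g j ∈ insert a s).val =
          (univ.filter fun j => g j ∈ s).val + (univ.filter fun j => g j = a).val := by
        rw [← Finset.disjUnion_val _ _ (by
          rw [disjoint_left]; intro j h1 h2
          exact ha ((mem_filter.1 h2).2 ▸ (mem_filter.1 h1).2))]
        congr 1; ext j; simp [or_comm]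
      rw [e, Multiset.map_add, add_assoc]
      refine Relation.ReflTransGen.head ?_ (ih _)
      refine ⟨∑ j ∈ univ.filter (fun j => g j = a), m j,
        (s.val.map fun a => ∑ j ∈ univ.filter (fun j => g j = a), m j) + r,
        (univ.filter fun j => g j = a).val.map m, ?_, add_left_comm _ _ _, ⟨?_, ?_⟩, rfl⟩
      · rw [insert_val_of_notMem ha, Multiset.map_cons, Multiset.cons_add]
      · intro h0
        have h1 := h a
        have h2 := hk a
        rw [Multiset.map_eq_zero, val_eq_zero] at h0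
        rw [h0] at h1
        simp at h1; omega
      · intro x hx
        obtain ⟨j, _, rfl⟩ := Multiset.mem_map.1 hx
        exact hm j
  simpa using key univ 0

lemma rel_of_forall₂ {l1 l2 : List ℕ} (h : List.Forall₂ (· ≤ ·) l1 l2) :
    Multiset.Rel (· ≤ ·) (l1 : Multiset ℕ) (l2 : Multiset ℕ) := by
  induction h with
  | nil => exact Multiset.Rel.zero
  | cons h _ ih => exact Multiset.Rel.cons h ih

lemma ple_of_sub {a b : Multiset ℕ} (ha : IsPart a) (hb : IsPart b)
    (h : List.SublistForall₂ (· ≤ ·) a.toList b.toList) : PLe a b := by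
  obtain ⟨l, h1, h2⟩ := List.sublistForall₂_iff.1 h
  have h3 : (l : Multiset ℕ) ≤ b := by
    rw [← Multiset.coe_toList b]; exact Multiset.coe_le.2 h2.subperm
  obtain ⟨e, he⟩ := Multiset.le_iff_exists_add.1 h3
  rw [← Multiset.coe_toList a]
  have hne : a.toList ≠ [] := by simpa using ha.1
  generalize a.toList = la at h1 hne
  cases h1 with
  | nil => exact absurd rfl hne
  | @cons x y t1 t2 hxy ht =>
    refine ⟨(y + e.sum) ::ₘ (t2 : Multiset ℕ),
      Multiset.Rel.cons (hxy.trans (Nat.le_add_right _ _)) (rel_of_forall₂ ht),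
      Relation.ReflTransGen.single ⟨_, _, y ::ₘ e, rfl, ?_, ⟨Multiset.cons_ne_zero, ?_⟩, by simp⟩⟩
    · rw [he, ← Multiset.cons_coe, Multiset.cons_add, Multiset.cons_add, add_comm]
    · intro z hz
      apply hb.2
      rw [he, ← Multiset.cons_coe]
      rcases Multiset.mem_cons.1 hz with h | h
      · simp [h]
      · simp [h]

lemma finite_anti (S : Set (Multiset ℕ)) (h1 : ∀ a ∈ S, IsPart a)
    (h2 : ∀ a ∈ S, ∀ b ∈ S, a ≠ b → ¬ PLe a b) : S.Finite := by
  have hw := Set.PartiallyWellOrderedOn.partiallyWellOrderedOn_sublistForall₂ (α := ℕ) (· ≤ ·)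
    (s := Set.univ) (Set.isPWO_of_wellQuasiOrderedLE _)
  have : (Multiset.toList '' S).Finite := by
    refine IsAntichain.finite_of_partiallyWellOrderedOn (r := List.SublistForall₂ (· ≤ ·)) ?_
      (hw.mono (by intro l _ x _; trivial))
    rintro _ ⟨a, ha, rfl⟩ _ ⟨b, hb, rfl⟩ hne h
    exact h2 a ha b hb (fun e => hne (by rw [e])) (ple_of_sub (h1 a ha) (h1 b hb) h)
  refine this.of_finite_image ?_
  intro a _ b _ h
  rw [← Multiset.coe_toList a, h, Multiset.coe_toList]

lemma greedy {V : Type} [LinearOrder V] [WellFoundedLT V] (S : V → Finset ℕ) (B : V → Finset V)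
    (h : ∀ v, ∀ u ∈ B v, u < v) (hc : ∀ v, (B v).card < (S v).card) :
    ∃ f : V → ℕ, ∀ v, f v ∈ S v ∧ ∀ u ∈ B v, f u ≠ f v := by
  have ex : ∀ (v : V) (r : ∀ u, u < v → ℕ), ∃ c ∈ S v, ∀ u (hu : u ∈ B v), r u (h v u hu) ≠ c := by
    intro v r
    have : ((B v).attach.image fun u => r u.1 (h v u.1 u.2)).card < (S v).card :=
      lt_of_le_of_lt (card_image_le.trans card_attach.le) (hc v)
    obtain ⟨c, h1, h2⟩ := exists_mem_notMem_of_card_lt_card this
    exact ⟨c, h1, fun u hu e => h2 (mem_image.2 ⟨⟨u, hu⟩, mem_attach _ _, e⟩)⟩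
  choose F hF using ex
  refine ⟨(wellFounded_lt (α := V)).fix F, fun v => ?_⟩
  rw [WellFounded.fix_eq]
  exact hF v _

section
variable {A : Finset (Multiset ℕ)}
  (d : ℕ → ((l : A) → l.1.ToType) × Finset ℕ × Finset ℕ × ℕ)

open Classical in
def Valid (n : ℕ) : Prop :=
  ∀ l : A, ((d n).2.1.filter fun u => (d u).1 l = (d n).1 l).card < ((d n).1 l : ℕ)

def Back (u n : ℕ) : Prop := Valid d n ∧ u ∈ (d n).2.1 ∧ u < n

def gr (N : ℕ) : SimpleGraph (Fin N) where
  Adj u v := Back d u v ∨ Back d v u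
  symm := ⟨fun _ _ h => h.symm⟩
  loopless := ⟨fun _ h => by rcases h with h | h <;> exact lt_irrefl _ h.2.2⟩

lemma good (hA : ∀ a ∈ A, IsPart a) (N : ℕ) (l : A) : Choosable (gr d N) l.1 := by
  classical
  rintro L ⟨cl, hcl⟩
  obtain ⟨f, hf⟩ := greedy (V := Fin N) (fun v => (L v).filter fun c => cl c = (d v).1 l)
    (fun v => univ.filter fun u => Back d u v ∧ (d u).1 l = (d v).1 l)
    (fun v u hu => (mem_filter.1 hu).2.1.2.2) (by
      intro v
      rw [hcl]
      by_cases hv : Valid d v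
      · refine lt_of_le_of_lt ?_ (hv l)
        refine card_le_card_of_injOn Fin.val ?_ Fin.val_injective.injOn
        intro u hu
        simp only [coe_filter, mem_univ, true_and, Set.mem_setOf_eq] at hu ⊢
        exact ⟨hu.1.2.1, hu.2⟩
      · rw [filter_false_of_mem (fun u _ hu => hv hu.1.1), card_empty]
        exact (hA l.1 l.2).2 _ (Multiset.coe_mem (x := (d v).1 l)))
  have key : ∀ u v : Fin N, Back d u v → f u ≠ f v := by
    intro u v h e
    refine (hf v).2 u (mem_filter.2 ⟨mem_univ _, h, ?_⟩) e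
    rw [← (mem_filter.1 (hf u).1).2, ← (mem_filter.1 (hf v).1).2, e]
  refine ⟨f, fun v => (mem_filter.1 (hf v).1).1, fun u v h => ?_⟩
  rcases h with h | h
  · exact key u v h
  · exact (key v u h).symm

lemma bad_inf (hd : Function.Surjective d) (hA : ∀ a ∈ A, IsPart a) (b : Multiset ℕ)
    (hb : IsPart b) (hab : ∀ a ∈ A, ¬ PLe a b) :
    ∃ L : ℕ → Finset ℕ, IsAssign b L ∧
      ∀ f : ℕ → ℕ, (∀ v, f v ∈ L v) → ¬ ∀ u v, Back d u v → f u ≠ f v := by
  classical
  obtain ⟨x, hx⟩ := Multiset.exists_mem_of_ne_zero hb.1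
  haveI : Nonempty b.ToType := ⟨⟨x, ⟨0, Multiset.count_pos.2 hx⟩⟩⟩
  obtain ⟨s, hs⟩ := exists_surjective_nat (b.ToType × ℕ)
  have hinf : ∀ j, {c | (s c).1 = j}.Infinite := by
    intro j
    refine Set.infinite_of_injective_forall_mem (f := fun i => Function.surjInv hs (j, i)) ?_ ?_
    · intro i i' h
      simpa using Function.injective_surjInv hs h
    · intro i; simp [Function.surjInv_eq hs]
  have hbi : ∀ P : b.ToType → Finset ℕ, (∀ j, ∀ c ∈ P j, (s c).1 = j) → (∀ j, (P j).card = (j : ℕ)) →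
      ∀ j, ((univ.biUnion P).filter fun c => (s c).1 = j).card = (j : ℕ) := by
    intro P h1 h2 j
    rw [← h2 j]; congr 1
    ext c
    simp only [mem_filter, mem_biUnion, mem_univ, true_and]
    exact ⟨fun ⟨⟨i, hi⟩, e⟩ => by rw [← e, h1 i c hi]; exact hi, fun h => ⟨⟨j, h⟩, h1 j c h⟩⟩
  have h0 : ∀ j : b.ToType, ∃ P : Finset ℕ, (∀ c ∈ P, (s c).1 = j) ∧ P.card = (j : ℕ) := by
    intro j
    obtain ⟨P, h1, h2⟩ := (hinf j).exists_subset_card_eq (j : ℕ)
    exact ⟨P, fun c hc => h1 hc, h2⟩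
  choose P0 hP0 hP0' using h0
  refine ⟨fun n => if ∀ j, ((d n).2.2.1.filter fun c => (s c).1 = j).card = (j : ℕ) then (d n).2.2.1
    else univ.biUnion P0, ⟨fun c => (s c).1, fun v i => ?_⟩, fun f hf hp => ?_⟩
  · by_cases h : ∀ j, ((d v).2.2.1.filter fun c => (s c).1 = j).card = (j : ℕ)
    · simp only [if_pos h]; exact h i
    · simp only [if_neg h]; exact hbi P0 hP0 hP0' i
  have h1 : ∀ j : b.ToType, ∃ (σ : (l : A) → l.1.ToType) (P N : Finset ℕ),
      (∀ c ∈ P, (s c).1 = j) ∧ P.card = (j : ℕ) ∧ N.card ≤ (j : ℕ) ∧ (∀ u ∈ N, (d u).1 = σ) ∧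
      ∀ c ∈ P, (∃ u ∈ N, f u = c) ∨ ∀ u, f u ≠ c := by
    intro j
    by_cases h : ∃ σ, {c | (s c).1 = j ∧ ∃ u, (d u).1 = σ ∧ f u = c}.Infinite
    · obtain ⟨σ, hσ⟩ := h
      obtain ⟨P, h1, h2⟩ := hσ.exists_subset_card_eq (j : ℕ)
      have h3 : ∀ c : P, ∃ u, (d u).1 = σ ∧ f u = c := fun c => (h1 c.2).2
      choose w hw using h3
      refine ⟨σ, P, univ.image w, fun c hc => (h1 hc).1, h2, card_image_le.trans (by simp [h2]),
        ?_, fun c hc => Or.inl ⟨w ⟨c, hc⟩, mem_image_of_mem _ (mem_univ _), (hw _).2⟩⟩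
      intro u hu
      obtain ⟨c, _, rfl⟩ := mem_image.1 hu
      exact (hw c).1
    · push Not at h
      have hfin := Set.finite_iUnion h
      obtain ⟨P, h1, h2⟩ := ((hinf j).diff hfin).exists_subset_card_eq (j : ℕ)
      refine ⟨(d 0).1, P, ∅, fun c hc => (h1 hc).1, h2, by simp, by simp,
        fun c hc => Or.inr fun u e => (h1 hc).2 ?_⟩
      exact Set.mem_iUnion.2 ⟨(d u).1, (h1 hc).1, u, rfl, e⟩
  choose σ P N hP hPc hN hNσ hPN using h1
  have h2 : ∀ l : A, ∃ a : l.1.ToType,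
      ∑ j ∈ univ.filter (fun j => σ j l = a), (j : ℕ) < (a : ℕ) := by
    intro l
    by_contra hc
    push Not at hc
    have := group (fun a : l.1.ToType => (a : ℕ)) (fun j : b.ToType => (j : ℕ))
      (fun a => (hA l.1 l.2).2 _ (Multiset.coe_mem (x := a)))
      (fun j => hb.2 _ (Multiset.coe_mem (x := j))) (fun j => σ j l) hc
    rw [Multiset.map_univ_coe, Multiset.map_univ_coe] at this
    exact hab l.1 l.2 this
  choose τ hτ using h2
  have h3 : {n | ∃ i, d n = (τ, univ.biUnion N, univ.biUnion P, i)}.Infinite := by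
    refine Set.infinite_of_injective_forall_mem
      (f := fun i => Function.surjInv hd (τ, univ.biUnion N, univ.biUnion P, i)) ?_ ?_
    · intro i i' h
      simpa using Function.injective_surjInv hd h
    · intro i; exact ⟨i, Function.surjInv_eq hd _⟩
  obtain ⟨n, ⟨i, hn⟩, hgt⟩ := h3.exists_gt ((univ.biUnion N).sup id)
  have hv : Valid d n := by
    intro l
    rw [hn]
    refine lt_of_le_of_lt ?_ (hτ l)
    have : ((univ.biUnion N).filter fun u => (d u).1 l = τ l) ⊆
        (univ.filter fun j => σ j l = τ l).biUnion N := by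
      intro u hu
      simp only [mem_filter, mem_biUnion, mem_univ, true_and] at hu ⊢
      obtain ⟨⟨j, hj⟩, e⟩ := hu
      exact ⟨j, by rw [← hNσ j u hj]; exact e, hj⟩
    exact (card_le_card this).trans (card_biUnion_le.trans (sum_le_sum fun j _ => hN j))
  have h4 := hf n
  simp only [hn, if_pos (hbi P hP hPc)] at h4
  obtain ⟨j, _, hj⟩ := mem_biUnion.1 h4
  rcases hPN j _ hj with ⟨u, hu, e⟩ | h
  · have hu' : u ∈ univ.biUnion N := mem_biUnion.2 ⟨j, mem_univ _, hu⟩
    exact hp u n ⟨hv, by rw [hn]; exact hu', lt_of_le_of_lt (le_sup (f := id) hu') hgt⟩ e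
  · exact h n rfl

lemma bad (hd : Function.Surjective d) (hA : ∀ a ∈ A, IsPart a) (b : Multiset ℕ)
    (hb : IsPart b) (hab : ∀ a ∈ A, ¬ PLe a b) : ∃ N0, ∀ N, N0 ≤ N → ¬ Choosable (gr d N) b := by
  obtain ⟨L, ⟨cl, hcl⟩, hL⟩ := bad_inf d hd hA b hb hab
  by_contra hc
  push Not at hc
  have h1 : ∀ N0 : ℕ, ∃ f : ℕ → ℕ, (∀ v, v < N0 → f v ∈ L v) ∧
      ∀ u v, v < N0 → Back d u v → f u ≠ f v := by
    intro N0
    obtain ⟨N, hN, h⟩ := hc N0
    obtain ⟨f, h1, h2⟩ := h (fun v => L v) ⟨cl, fun v i => hcl v i⟩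
    refine ⟨fun v => if h : v < N then f ⟨v, h⟩ else 0, fun v hv => ?_, fun u v hv h => ?_⟩
    · have : v < N := by omega
      simp only [dif_pos this]; exact h1 _
    · have h3 : v < N := by omega
      have h4 : u < N := lt_trans h.2.2 h3
      simp only [dif_pos h3, dif_pos h4]
      exact h2 _ _ (Or.inl h)
  choose F hF1 hF2 using h1
  have hev : ∀ v, ∀ᶠ N in (Filter.hyperfilter ℕ : Filter ℕ), v < N := fun v =>
    Nat.hyperfilter_le_atTop (Filter.eventually_gt_atTop v)
  have h2 : ∀ v, ∃ c ∈ (L v : Set ℕ), ∀ᶠ N in (Filter.hyperfilter ℕ : Filter ℕ), F N v = c := by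
    intro v
    rw [← Ultrafilter.eventually_exists_mem_iff (L v).finite_toSet]
    filter_upwards [hev v] with N hN
    exact ⟨_, hF1 N v hN, rfl⟩
  choose f hf1 hf2 using h2
  refine hL f hf1 fun u v h => ?_
  obtain ⟨N, h1, h2, h3⟩ := ((hev v).and ((hf2 u).and (hf2 v))).exists
  rw [← h2, ← h3]
  exact hF2 N u v h1 h

end

theorem result (A B : Set (Multiset ℕ)) (hp : ∀ l ∈ A ∪ B, IsPart l) (hd : Disjoint A B)
    (hinc : ∀ a ∈ A ∪ B, ∀ b ∈ A ∪ B, a ≠ b → ¬ PLe a b) :
    ∃ (n : ℕ) (G : SimpleGraph (Fin n)), (∀ l ∈ A, Choosable G l) ∧ ∀ l ∈ B, ¬ Choosable G l := by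
  classical
  have hfin := finite_anti _ hp hinc
  have hA : A.Finite := hfin.subset Set.subset_union_left
  have hB : B.Finite := hfin.subset Set.subset_union_right
  have hA' : ∀ a ∈ hA.toFinset, IsPart a := fun a ha => hp a (Or.inl (by simpa using ha))
  haveI : Nonempty ((l : hA.toFinset) → l.1.ToType) := ⟨fun l =>
    ⟨(Multiset.exists_mem_of_ne_zero (hA' l.1 l.2).1).choose, ⟨0, Multiset.count_pos.2
      (Multiset.exists_mem_of_ne_zero (hA' l.1 l.2).1).choose_spec⟩⟩⟩
  obtain ⟨d, hd'⟩ := exists_surjective_nat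
    (((l : hA.toFinset) → l.1.ToType) × Finset ℕ × Finset ℕ × ℕ)
  have h1 : ∀ b : hB.toFinset, ∃ N0, ∀ N, N0 ≤ N → ¬ Choosable (gr d N) b.1 := by
    intro b
    have hb : b.1 ∈ B := hB.mem_toFinset.1 b.2
    refine bad d hd' hA' b.1 (hp _ (Or.inr hb)) fun a ha => ?_
    have ha' : a ∈ A := by simpa using ha
    exact hinc a (Or.inl ha') _ (Or.inr hb) fun e => Set.disjoint_left.1 hd ha' (e ▸ hb)
  choose N0 hN0 using h1
  refine ⟨univ.sup N0, gr d _, fun l hl => good d hA' _ ⟨l, by simpa using hl⟩, fun l hl => ?_⟩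
  exact hN0 ⟨l, by simpa using hl⟩ _ (le_sup (mem_univ _))

end Pool.Agent.Results.MP_6532c6_co.Full
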